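import Pool.Agent.Q152.CC.Stm

/-!
Lemma job BOX of project CC (helper152): sums over boxes.
-/

set_option autoImplicit false

namespace Pool.Agent.Q154.CC

open Finset Pool.Agent.Y692.QS Pool.Agent.Q152.CC
open Pool.Agent.Q255.CU (fc)

theorem strip (g : ℤ → ℤ → ℂ) (T : ℕ)
    (h0 : ∀ a b : ℤ, ∑ x ∈ range T, ∑ y ∈ range T, g (a + x) (b + y) = 0) (m : ℕ) :
    ∀ a b : ℤ, ∑ x ∈ range T, ∑ y ∈ range (m * T), g (a + x) (b + y) = 0 := by
  induction m with
  | zero =>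
    intro a b
    simp
  | succ m ih =>
    intro a b
    have h1 : ∀ x ∈ range T, ∑ y ∈ range ((m + 1) * T), g (a + x) (b + y) =
        ∑ y ∈ range (m * T), g (a + x) (b + y) +
          ∑ y ∈ range T, g (a + x) ((b + ((m * T : ℕ) : ℤ)) + y) := by
      intro x _
      rw [Nat.succ_mul, sum_range_add]
      congr 1
      refine sum_congr rfl fun y _ => ?_
      congr 1
      push_cast
      ring
    rw [sum_congr rfl h1, sum_add_distrib, ih, h0, add_zero]

theorem square (g : ℤ → ℤ → ℂ) (T : ℕ)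
    (h0 : ∀ a b : ℤ, ∑ x ∈ range T, ∑ y ∈ range T, g (a + x) (b + y) = 0) (m n : ℕ) :
    ∀ a b : ℤ, ∑ x ∈ range (n * T), ∑ y ∈ range (m * T), g (a + x) (b + y) = 0 := by
  induction n with
  | zero =>
    intro a b
    simp
  | succ n ih =>
    intro a b
    rw [Nat.succ_mul, sum_range_add, ih, zero_add]
    have h1 := strip g T h0 m (a + ((n * T : ℕ) : ℤ)) b
    rw [← h1]
    refine sum_congr rfl fun x _ => sum_congr rfl fun y _ => ?_
    congr 1
    push_cast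
    ring

theorem boxg (g : ℤ → ℤ → ℂ) (hg : ∀ x y, ‖g x y‖ ≤ 1) (T : ℕ)
    (h0 : ∀ a b : ℤ, ∑ x ∈ range T, ∑ y ∈ range T, g (a + x) (b + y) = 0) (hT : 0 < T) (a b : ℤ) (L : ℕ) :
    ‖∑ x ∈ range L, ∑ y ∈ range L, g (a + x) (b + y)‖ ≤ 2 * L * T := by
  have hs : ∀ (s t : Finset ℕ) (u w : ℕ → ℤ), ‖∑ x ∈ s, ∑ y ∈ t, g (u x) (w y)‖ ≤ (s.card : ℝ) * t.card := by
    intro s t u w
    calc ‖∑ x ∈ s, ∑ y ∈ t, g (u x) (w y)‖ ≤ ∑ x ∈ s, ∑ y ∈ t, ‖g (u x) (w y)‖ :=
          (norm_sum_le _ _).trans (sum_le_sum fun x _ => norm_sum_le _ _)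
      _ ≤ ∑ _x ∈ s, ∑ _y ∈ t, (1 : ℝ) := sum_le_sum fun x _ => sum_le_sum fun y _ => hg _ _
      _ = (s.card : ℝ) * t.card := by simp
  obtain ⟨n, hn⟩ : ∃ n, n = L / T := ⟨_, rfl⟩
  obtain ⟨r, hr⟩ : ∃ r, r = L % T := ⟨_, rfl⟩
  have hL : L = n * T + r := by
    rw [hn, hr, mul_comm]
    exact (Nat.div_add_mod L T).symm
  have hrT : r < T := by
    rw [hr]
    exact Nat.mod_lt _ hT
  have h1 : ∑ x ∈ range L, ∑ y ∈ range L, g (a + x) (b + y) =
      ∑ x ∈ range (n * T), ∑ y ∈ range r, g (a + x) (b + ((n * T + y : ℕ) : ℤ)) +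
        ∑ x ∈ range r, ∑ y ∈ range L, g (a + ((n * T + x : ℕ) : ℤ)) (b + y) := by
    conv_lhs => rw [show range L = range (n * T + r) by rw [← hL], sum_range_add]
    rw [← hL]
    congr 1
    have h2 : ∀ x ∈ range (n * T), ∑ y ∈ range L, g (a + x) (b + y) =
        ∑ y ∈ range (n * T), g (a + x) (b + y) + ∑ y ∈ range r, g (a + x) (b + ((n * T + y : ℕ) : ℤ)) := by
      intro x _
      rw [show range L = range (n * T + r) by rw [← hL], sum_range_add]
    rw [sum_congr rfl h2, sum_add_distrib, square g T h0, zero_add]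
  rw [h1]
  have h3 := hs (range (n * T)) (range r) (fun x => a + x) (fun y => b + ((n * T + y : ℕ) : ℤ))
  have h4 := hs (range r) (range L) (fun x => a + ((n * T + x : ℕ) : ℤ)) (fun y => b + y)
  rw [card_range, card_range] at h3 h4
  have h5 : ((n * T : ℕ) : ℝ) ≤ L := by
    have : n * T ≤ L := by omega
    exact_mod_cast this
  have h6 : (r : ℝ) ≤ T := by exact_mod_cast hrT.le
  have h7 : ((n * T : ℕ) : ℝ) * r ≤ L * T := mul_le_mul h5 h6 (Nat.cast_nonneg _) (Nat.cast_nonneg _)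
  have h8 : (r : ℝ) * L ≤ L * T := by
    rw [mul_comm]
    exact mul_le_mul_of_nonneg_left h6 (Nat.cast_nonneg _)
  calc _ ≤ _ := norm_add_le _ _
    _ ≤ ((n * T : ℕ) : ℝ) * r + (r : ℝ) * L := add_le_add h3 h4
    _ ≤ 2 * L * T := by linarith

/-- three divides `al a b - 1` -/
theorem al_one (a b : ℤ) : (3 : Ei) ∣ al a b - 1 := by
  have h : (((3 : ℤ) : ℤ) : Ei) ∣ al a b - 1 := by
    rw [int_dvd]
    constructor
    · rw [QuadraticAlgebra.re_sub]
      exact ⟨a, by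
        show 1 + 3 * a - 1 = 3 * a
        ring⟩
    · rw [QuadraticAlgebra.im_sub]
      exact ⟨b, by
        show 3 * b - 0 = 3 * b
        ring⟩
  exact h

theorem box (ful : S_FUL) (xmu : S_XMU) : S_BOX := by
  intro A B hA hB hAB a b L
  have h := boxg (fun x y => xi (al x y) A * star (xi (al x y) B)) (fun x y => by
    rw [norm_mul, norm_star]
    have h1 := xmu.2.2 (al x y) A hA (al_one x y)
    have h2 := xmu.2.2 (al x y) B hB (al_one x y)
    calc ‖xi (al x y) A‖ * ‖xi (al x y) B‖ ≤ 1 * 1 := mul_le_mul h1 h2 (norm_nonneg _) zero_le_one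
      _ = 1 := one_mul 1) (3 * A * B) (fun a b => ful A B hA hB hAB a b) (by positivity) a b L
  push_cast at h
  exact h

end Pool.Agent.Q154.CC
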